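import Pool.Agent.Helper3_PPZ.Stmts
import Pool.Agent.Helper1_PGH.DerivExt

/-! Squad PPZ, module HOR: horizontal derivations. -/

set_option autoImplicit false

universe u

open PGH IntermediateField

namespace Pool.Agent.PPZ.H9

/-- A derivation of `E` with `δ φ = 1` preserves `L` if `L` is algebraic over `k(φ)`. -/
lemma pres {k L E : Type*} [Field k] [Field L] [Field E] [Algebra k L] [Algebra L E] [Algebra k E]
    [IsScalarTower k L E] [CharZero k] (φ : L) (hφ : Transcendental k φ)
    (halg : ∀ c : L, IsAlgebraic (IntermediateField.adjoin k {φ}) c)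
    (δ : Derivation k E E) (h1 : δ (algebraMap L E φ) = 1) (c : L) :
    ∃ d : L, δ (algebraMap L E c) = algebraMap L E d := by
  obtain ⟨δL, hδL⟩ := exists_deriv k L hφ
  refine ⟨δL c, ?_⟩
  rw [← sub_eq_zero, ← Module.forall_dual_apply_eq_zero_iff L]
  intro f
  set D1 : Derivation k L L := f.compDer (δ.compAlgebraMap L) with hD1
  have hD1a : ∀ x : L, D1 x = f (δ (algebraMap L E x)) := fun x => rfl
  set D2 : Derivation k L L := D1 - f 1 • δL with hD2
  have hφ0 : (D2.restrictScalars ℤ) ((AlgHom.id k L) φ) = 0 := by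
    show D2 φ = 0
    rw [hD2, Derivation.sub_apply, Derivation.smul_apply, hD1a, h1, hδL]
    simp
  have h2 := deriv_zero_of_isAlgebraic_adjoin (AlgHom.id k L) (D2.restrictScalars ℤ)
    (fun a => by show D2 (algebraMap k L a) = 0; exact D2.map_algebraMap a) hφ0 (halg c)
  have h3 : D2 c = 0 := h2
  rw [hD2, Derivation.sub_apply, Derivation.smul_apply, hD1a] at h3
  rw [map_sub]
  have h4 : f (algebraMap L E (δL c)) = f 1 • δL c := by
    rw [Algebra.algebraMap_eq_smul_one, map_smul, smul_eq_mul, smul_eq_mul, mul_comm]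
  rw [h4]
  exact h3

/-- HOR. -/
theorem hor : HorStmt.{u} := by
  intro k L E _ _ _ _ _ _ _ _ _ _ _ φ hφ halg P
  obtain ⟨t, ht0, ht⟩ := P.exists_unif
  have htr : Transcendental L t := by
    rw [PGH.transcendental_iff]
    rintro c rfl
    rw [P.ord_const] at ht
    exact zero_ne_one ht
  obtain ⟨δ1, hδ1⟩ := exists_deriv k E
    ((transcendental_algebraMap_iff (algebraMap L E).injective).2 hφ)
  obtain ⟨δ2, hδ2⟩ := exists_deriv L E htr
  set δ : Derivation k E E := δ1 - δ1 t • δ2.restrictScalars k with hδ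
  have hφ1 : δ (algebraMap L E φ) = 1 := by
    rw [hδ, Derivation.sub_apply, Derivation.smul_apply, hδ1]
    show 1 - δ1 t • δ2 (algebraMap L E φ) = 1
    rw [δ2.map_algebraMap, smul_zero, sub_zero]
  have ht1 : δ t = 0 := by
    rw [hδ, Derivation.sub_apply, Derivation.smul_apply]
    show δ1 t - δ1 t • δ2 t = 0
    rw [hδ2, smul_eq_mul, mul_one, sub_self]
  have hpres : PresL L (δ.restrictScalars ℤ) := pres φ hφ halg δ hφ1
  obtain ⟨c, s, -, hc⟩ := bounded_poles (δ.restrictScalars ℤ) hpres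
  obtain ⟨h1, h2⟩ := tame_descent hpres (hc P) ht0 ht one_ne_zero (B := 1)
    (by show P.Ge 1 (δ t); rw [ht1]; exact P.ge_zero 1)
  refine ⟨δ, hφ1, ?_, ?_⟩
  · intro y hy
    exact (h1.mono (by norm_num)) y hy
  · intro y hy
    exact (h2 y hy).mono (by norm_num)

end Pool.Agent.PPZ.H9
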